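import Pool.Agent.Helper47.UG.Stmts

set_option autoImplicit false

/-! Project UG (MP_e500b6_co), module HYP: integral points on a hyperbola. -/

namespace Pool.Agent.Helper47.UG

open Finset
open scoped Classical
open Pool.Agent.Helper37.DG (box sbox)

/-- on a branch the first coordinate moves less than the second -/
theorem hyp_close {T X Y X' Y' : ℝ} (hT : 0 < T) (hX : 0 < X) (hX' : 0 < X')
    (h : X ^ 2 - Y ^ 2 = T) (h' : X' ^ 2 - Y' ^ 2 = T) : |X - X'| ≤ |Y - Y'| := by
  have hY : |Y| < X := abs_lt_of_sq_lt_sq (by nlinarith) hX.le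
  have hY' : |Y'| < X' := abs_lt_of_sq_lt_sq (by nlinarith) hX'.le
  have e : (X - X') * (X + X') = (Y - Y') * (Y + Y') := by nlinarith
  have e2 : |X - X'| * (X + X') = |Y - Y'| * |Y + Y'| := by
    rw [← abs_of_pos (show 0 < X + X' by linarith), ← abs_mul, e, abs_mul]
  have h3 : |Y + Y'| ≤ X + X' := (abs_add_le Y Y').trans (by linarith)
  have h4 : |X - X'| * (X + X') ≤ |Y - Y'| * (X + X') := by
    rw [e2]; exact mul_le_mul_of_nonneg_left h3 (abs_nonneg _)
  exact le_of_mul_le_mul_right h4 (by linarith)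

/-- strict version -/
theorem hyp_close' {T X Y X' Y' : ℝ} (hT : 0 < T) (hX : 0 < X) (hX' : 0 < X')
    (h : X ^ 2 - Y ^ 2 = T) (h' : X' ^ 2 - Y' ^ 2 = T) (hne : Y ≠ Y') : |X - X'| < |Y - Y'| := by
  have hY : |Y| < X := abs_lt_of_sq_lt_sq (by nlinarith) hX.le
  have hY' : |Y'| < X' := abs_lt_of_sq_lt_sq (by nlinarith) hX'.le
  have e : (X - X') * (X + X') = (Y - Y') * (Y + Y') := by nlinarith
  have e2 : |X - X'| * (X + X') = |Y - Y'| * |Y + Y'| := by
    rw [← abs_of_pos (show 0 < X + X' by linarith), ← abs_mul, e, abs_mul]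
  have h3 : |Y + Y'| < X + X' := (abs_add_le Y Y').trans_lt (by linarith)
  have h5 : 0 < |Y - Y'| := abs_pos.mpr (sub_ne_zero.mpr hne)
  have h4 : |X - X'| * (X + X') < |Y - Y'| * (X + X') := by
    rw [e2]; exact mul_lt_mul_of_pos_left h3 h5
  exact lt_of_mul_lt_mul_right h4 (by linarith)

/-- the points of one branch -/
theorem hyp_core (β γ T : ℝ) (hT : 0 < T) (N H : ℕ) (hH : 1 ≤ H) (S : Finset (ℤ × ℤ))
    (hN : ∀ v ∈ S, -(N : ℤ) ≤ v.2 ∧ v.2 ≤ N)
    (hS : ∀ v ∈ S, 0 < (v.1 : ℝ) + β ∧ ((v.1 : ℝ) + β) ^ 2 - ((v.2 : ℝ) + γ) ^ 2 = T) :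
    S.card ≤ 2 * (N / H) + 2 + (2 * H + 1) * H := by
  have hHZ : (1 : ℤ) ≤ H := by exact_mod_cast hH
  have hinj : ∀ v ∈ S, ∀ w ∈ S, v.2 = w.2 → v = w := by
    intro v hv w hw e
    have h := hyp_close hT (hS v hv).1 (hS w hw).1 (hS v hv).2 (hS w hw).2
    rw [e] at h
    simp only [sub_self, abs_zero] at h
    have h0 := abs_eq_zero.mp (le_antisymm h (abs_nonneg _))
    have h1 : (v.1 : ℝ) = w.1 := by linarith
    have h2 : v.1 = w.1 := by exact_mod_cast h1
    exact Prod.ext h2 e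
  set G := S.filter (fun v => ∀ w ∈ S, v.2 < w.2 → v.2 + H < w.2) with hG
  set B := S.filter (fun v => ¬ ∀ w ∈ S, v.2 < w.2 → v.2 + H < w.2) with hB
  have hcard : S.card = G.card + B.card := by
    rw [hG, hB]; exact (Finset.card_filter_add_card_filter_not _).symm
  have hGc : G.card ≤ 2 * (N / H) + 2 := by
    have h1 : G.card ≤ (Finset.Icc (-((N : ℤ) / H) - 1) ((N : ℤ) / H)).card := by
      refine Finset.card_le_card_of_injOn (fun v => v.2 / (H : ℤ)) ?_ ?_
      · intro v hv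
        have hv' := (Finset.mem_filter.mp (Finset.mem_coe.mp hv)).1
        obtain ⟨h1, h2⟩ := hN v hv'
        rw [Finset.mem_coe, Finset.mem_Icc]
        have e1 := Int.mul_ediv_add_emod (N : ℤ) (H : ℤ)
        have e2 := Int.emod_lt_of_pos (N : ℤ) (show (0 : ℤ) < H by omega)
        have e3 := Int.emod_nonneg (N : ℤ) (show (H : ℤ) ≠ 0 by omega)
        constructor
        · apply Int.le_ediv_of_mul_le (by omega)
          nlinarith
        · exact Int.ediv_le_ediv (by omega) h2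
      · intro v hv w hw e
        have hv' := Finset.mem_filter.mp (Finset.mem_coe.mp hv)
        have hw' := Finset.mem_filter.mp (Finset.mem_coe.mp hw)
        have a1 := Int.mul_ediv_add_emod v.2 (H : ℤ)
        have a2 := Int.emod_lt_of_pos v.2 (show (0 : ℤ) < H by omega)
        have a3 := Int.emod_nonneg v.2 (show (H : ℤ) ≠ 0 by omega)
        have b1 := Int.mul_ediv_add_emod w.2 (H : ℤ)
        have b2 := Int.emod_lt_of_pos w.2 (show (0 : ℤ) < H by omega)
        have b3 := Int.emod_nonneg w.2 (show (H : ℤ) ≠ 0 by omega)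
        have e' : v.2 / (H : ℤ) = w.2 / (H : ℤ) := e
        rw [e'] at a1
        rcases lt_trichotomy v.2 w.2 with h | h | h
        · have := hv'.2 w hw'.1 h; omega
        · exact hinj v hv'.1 w hw'.1 h
        · have := hw'.2 v hv'.1 h; omega
    rw [Int.card_Icc] at h1
    have h2 : ((N : ℤ) / H) = ((N / H : ℕ) : ℤ) := by push_cast; rfl
    rw [h2] at h1
    omega
  have hBc : B.card ≤ (2 * H + 1) * H := by
    have hex : ∀ v : ℤ × ℤ, ∃ w : ℤ × ℤ, v ∈ B → w ∈ S ∧ v.2 < w.2 ∧ w.2 ≤ v.2 + H := by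
      intro v
      by_cases hv : v ∈ B
      · have h := (Finset.mem_filter.mp hv).2
        push Not at h
        obtain ⟨w, h1, h2, h3⟩ := h
        exact ⟨w, fun _ => ⟨h1, h2, h3⟩⟩
      · exact ⟨v, fun h => absurd h hv⟩
    choose f hf using hex
    have hab : ∀ v ∈ B, |((f v).1 : ℝ) - v.1| < ((f v).2 : ℝ) - v.2 := by
      intro v hv
      have hvS := (Finset.mem_filter.mp hv).1
      obtain ⟨h1, h2, h3⟩ := hf v hv
      have h2' : (v.2 : ℝ) < ((f v).2 : ℝ) := by exact_mod_cast h2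
      have h := hyp_close' hT (hS _ h1).1 (hS v hvS).1 (hS _ h1).2 (hS v hvS).2
        (by intro e; linarith)
      rw [show ((f v).1 : ℝ) + β - (v.1 + β) = ((f v).1 : ℝ) - v.1 by ring,
        show ((f v).2 : ℝ) + γ - (v.2 + γ) = ((f v).2 : ℝ) - v.2 by ring,
        abs_of_pos (show (0 : ℝ) < ((f v).2 : ℝ) - v.2 by linarith)] at h
      exact h
    have h1 : B.card ≤ (Finset.Icc (-(H : ℤ)) (H : ℤ) ×ˢ Finset.Icc (1 : ℤ) (H : ℤ)).card := by
      refine Finset.card_le_card_of_injOn (fun v => f v - v) ?_ ?_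
      · intro v hv
        have hv' := Finset.mem_coe.mp hv
        obtain ⟨h1, h2, h3⟩ := hf v hv'
        have h4 := hab v hv'
        have h5 : |(f v).1 - v.1| < (f v).2 - v.2 := by exact_mod_cast h4
        rw [Finset.mem_coe, Finset.mem_product, Finset.mem_Icc, Finset.mem_Icc]
        simp only [Prod.fst_sub, Prod.snd_sub]
        rw [abs_lt] at h5
        omega
      · intro v hv v' hv' e
        have hv1 := Finset.mem_coe.mp hv
        have hv2 := Finset.mem_coe.mp hv'
        have hvS := (Finset.mem_filter.mp hv1).1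
        have hvS' := (Finset.mem_filter.mp hv2).1
        obtain ⟨h1, h2, h3⟩ := hf v hv1
        obtain ⟨h1', h2', h3'⟩ := hf v' hv2
        have h4 := hab v hv1
        have e' : f v - v = f v' - v' := e
        have e1 : (f v).1 - v.1 = (f v').1 - v'.1 := by
          have := congrArg Prod.fst e'; simpa using this
        have e2 : (f v).2 - v.2 = (f v').2 - v'.2 := by
          have := congrArg Prod.snd e'; simpa using this
        have e1r : ((f v).1 : ℝ) - v.1 = ((f v').1 : ℝ) - v'.1 := by exact_mod_cast e1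
        have e2r : ((f v).2 : ℝ) - v.2 = ((f v').2 : ℝ) - v'.2 := by exact_mod_cast e2
        have s1 := (hS v hvS).2
        have s2 := (hS v' hvS').2
        have s3 := (hS _ h1).2
        have s4 := (hS _ h1').2
        set X : ℝ := (v.1 : ℝ) + β with hX
        set Y : ℝ := (v.2 : ℝ) + γ with hY
        set X' : ℝ := (v'.1 : ℝ) + β with hX'
        set Y' : ℝ := (v'.2 : ℝ) + γ with hY'
        set h : ℝ := ((f v).1 : ℝ) - v.1 with hh
        set k : ℝ := ((f v).2 : ℝ) - v.2 with hk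
        have t1 : ((f v).1 : ℝ) + β = X + h := by rw [hX, hh]; ring
        have t2 : ((f v).2 : ℝ) + γ = Y + k := by rw [hY, hk]; ring
        have t3 : ((f v').1 : ℝ) + β = X' + h := by rw [hX', e1r]; ring
        have t4 : ((f v').2 : ℝ) + γ = Y' + k := by rw [hY', e2r]; ring
        rw [t1, t2] at s3
        rw [t3, t4] at s4
        have hl : h * (X - X') = k * (Y - Y') := by nlinarith
        have hc := hyp_close hT (hS v hvS).1 (hS v' hvS').1 (hS v hvS).2 (hS v' hvS').2
        rw [← hX, ← hX', ← hY, ← hY'] at hc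
        have hk0 : 0 < k := lt_of_le_of_lt (abs_nonneg _) h4
        have hl2 : |h| * |X - X'| = k * |Y - Y'| := by
          rw [← abs_mul, hl, abs_mul, abs_of_pos hk0]
        have h6 : k * |Y - Y'| ≤ |h| * |Y - Y'| := by
          rw [← hl2]; exact mul_le_mul_of_nonneg_left hc (abs_nonneg _)
        have h7 : |Y - Y'| ≤ 0 := by
          by_contra hcon
          push Not at hcon
          have := le_of_mul_le_mul_right h6 hcon
          linarith
        have h8 : Y = Y' := by
          have := abs_eq_zero.mp (le_antisymm h7 (abs_nonneg _)); linarith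
        have h9 : (v.2 : ℝ) = v'.2 := by rw [hY, hY'] at h8; linarith
        exact hinj v hvS v' hvS' (by exact_mod_cast h9)
    rw [Finset.card_product, Int.card_Icc, Int.card_Icc] at h1
    have q1 : ((H : ℤ) + 1 - -(H : ℤ)).toNat = 2 * H + 1 := by omega
    have q2 : ((H : ℤ) + 1 - 1).toNat = H := by omega
    rw [q1, q2] at h1
    exact h1
  omega

/-- a natural number of size about `N^(1/3)` -/
theorem hyp_root (N : ℕ) (hN : 1 ≤ N) : ∃ H : ℕ, 1 ≤ H ∧ N ≤ H ^ 3 ∧ H ^ 3 ≤ 8 * N := by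
  have hex : ∃ H : ℕ, N ≤ H ^ 3 := ⟨N, Nat.le_self_pow (by norm_num) N⟩
  refine ⟨Nat.find hex, ?_, Nat.find_spec hex, ?_⟩
  · by_contra h
    have h0 : Nat.find hex = 0 := by omega
    have := Nat.find_spec hex
    rw [h0] at this
    simp at this
    omega
  · rcases Nat.lt_or_ge (Nat.find hex) 2 with h | h
    · interval_cases (Nat.find hex) <;> omega
    · have h1 := Nat.find_min hex (m := Nat.find hex - 1) (by omega)
      push Not at h1
      have h2 : Nat.find hex ≤ 2 * (Nat.find hex - 1) := by omega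
      calc Nat.find hex ^ 3 ≤ (2 * (Nat.find hex - 1)) ^ 3 := Nat.pow_le_pow_left h2 3
        _ = 8 * (Nat.find hex - 1) ^ 3 := by ring
        _ ≤ 8 * N := by omega

/-- one sign of the constant -/
theorem hyp_half (β γ T : ℝ) (hT : 0 < T) (N : ℕ) (hN1 : 1 ≤ N) (S : Finset (ℤ × ℤ))
    (hN : ∀ v ∈ S, -(N : ℤ) ≤ v.2 ∧ v.2 ≤ N)
    (hS : ∀ v ∈ S, ((v.1 : ℝ) + β) ^ 2 - ((v.2 : ℝ) + γ) ^ 2 = T) :
    (S.card : ℝ) ^ 3 ≤ 200000 * (N : ℝ) ^ 2 := by
  obtain ⟨H, hH1, hH2, hH3⟩ := hyp_root N hN1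
  have hdiv : N / H ≤ H ^ 2 := by
    apply Nat.div_le_of_le_mul
    calc N ≤ H ^ 3 := hH2
      _ = H * H ^ 2 := by ring
  set S1 := S.filter (fun v => 0 < (v.1 : ℝ) + β) with hS1
  set S2 := S.filter (fun v => ¬ 0 < (v.1 : ℝ) + β) with hS2
  have hc : S.card = S1.card + S2.card := by
    rw [hS1, hS2]; exact (Finset.card_filter_add_card_filter_not _).symm
  have h1 : S1.card ≤ 2 * (N / H) + 2 + (2 * H + 1) * H := by
    refine hyp_core β γ T hT N H hH1 S1 (fun v hv => hN v (Finset.mem_filter.mp hv).1) ?_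
    intro v hv
    exact ⟨(Finset.mem_filter.mp hv).2, hS v (Finset.mem_filter.mp hv).1⟩
  have h2 : S2.card ≤ 2 * (N / H) + 2 + (2 * H + 1) * H := by
    have hi : (S2.image (fun v : ℤ × ℤ => (-v.1, v.2))).card = S2.card := by
      apply Finset.card_image_of_injective
      intro v w e
      have e' := Prod.ext_iff.mp e
      simp only [neg_inj] at e'
      exact Prod.ext e'.1 e'.2
    rw [← hi]
    refine hyp_core (-β) γ T hT N H hH1 _ ?_ ?_
    · intro v hv
      obtain ⟨w, hw, rfl⟩ := Finset.mem_image.mp hv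
      exact hN w (Finset.mem_filter.mp hw).1
    · intro v hv
      obtain ⟨w, hw, rfl⟩ := Finset.mem_image.mp hv
      have hw' := Finset.mem_filter.mp hw
      have h3 := hS w hw'.1
      have h4 : (w.1 : ℝ) + β ≠ 0 := by
        intro h0
        rw [h0] at h3
        nlinarith [sq_nonneg ((w.2 : ℝ) + γ)]
      have h5 : (w.1 : ℝ) + β < 0 := lt_of_le_of_ne (not_lt.mp hw'.2) h4
      constructor
      · push_cast; linarith
      · push_cast
        rw [← h3]; ring
  have h3 : S.card ≤ 14 * H ^ 2 := by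
    have : 1 ≤ H ^ 2 := Nat.one_le_pow _ _ hH1
    have h4 : H ≤ H ^ 2 := Nat.le_self_pow (by norm_num) H
    have h5 : (2 * H + 1) * H = 2 * H ^ 2 + H := by ring
    omega
  have h4 : S.card ^ 3 ≤ 200000 * N ^ 2 := by
    calc S.card ^ 3 ≤ (14 * H ^ 2) ^ 3 := Nat.pow_le_pow_left h3 3
      _ = 2744 * (H ^ 3) ^ 2 := by ring
      _ ≤ 2744 * (8 * N) ^ 2 := Nat.mul_le_mul_left _ (Nat.pow_le_pow_left hH3 2)
      _ = 175616 * N ^ 2 := by ring
      _ ≤ 200000 * N ^ 2 := Nat.mul_le_mul_right _ (by norm_num)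
  exact_mod_cast h4

/-- HYP -/
theorem st_HYP : ST_HYP := by
  refine ⟨200000, by norm_num, ?_⟩
  intro A B₁ B₂ G N S hA hN1 hne hsub hS
  have hA' : (2 * A) ≠ 0 := by positivity
  have hbox : ∀ v ∈ S, (-(N : ℤ) ≤ v.1 ∧ v.1 ≤ N) ∧ (-(N : ℤ) ≤ v.2 ∧ v.2 ≤ N) := by
    intro v hv
    have h := hsub hv
    rw [sbox, Finset.mem_product, Finset.mem_Icc, Finset.mem_Icc] at h
    exact h
  set T : ℝ := (4 * A * G + B₁ ^ 2 - B₂ ^ 2) / (2 * A) ^ 2 with hT
  have hTne : T ≠ 0 := div_ne_zero hne (by positivity)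
  have key : ∀ v ∈ S, ((v.1 : ℝ) + B₁ / (2 * A)) ^ 2 - ((v.2 : ℝ) + B₂ / (2 * A)) ^ 2 = T := by
    intro v hv
    have h := hS v hv
    rw [hT, ← h]
    field_simp
    ring
  rcases lt_or_gt_of_ne hTne with h | h
  · have hi : (S.image (fun v : ℤ × ℤ => (v.2, v.1))).card = S.card := by
      apply Finset.card_image_of_injective
      intro v w e
      have e' := Prod.ext_iff.mp e
      exact Prod.ext e'.2 e'.1
    rw [← hi]
    refine hyp_half (B₂ / (2 * A)) (B₁ / (2 * A)) (-T) (by linarith) N hN1 _ ?_ ?_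
    · intro v hv
      obtain ⟨w, hw, rfl⟩ := Finset.mem_image.mp hv
      exact (hbox w hw).1
    · intro v hv
      obtain ⟨w, hw, rfl⟩ := Finset.mem_image.mp hv
      have := key w hw
      simp only
      linarith
  · exact hyp_half (B₁ / (2 * A)) (B₂ / (2 * A)) T h N hN1 S (fun v hv => (hbox v hv).2) key

end Pool.Agent.Helper47.UG
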